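import Pool.Agent.T6.H10.MG.Lift

/-!
# Tree-like actions have bounded orbits if no element has linearly growing powers
-/

set_option autoImplicit false

open scoped Pointwise

namespace Pool.Agent.T6.H10.MG

open Pool.Agent.H71R2.Thin Pool.Agent.H71R2.TW

universe u v w

theorem union_card {I : Type u} {Y : Type v} {s : Set I} (hs : s.Finite) (F : I → Set Y) (c : ℕ)
    (hF : ∀ i ∈ s, (F i).Finite ∧ (F i).ncard ≤ c) :
    (⋃ i ∈ s, F i).Finite ∧ (⋃ i ∈ s, F i).ncard ≤ s.ncard * c := by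
  classical
  have h1 : (⋃ i ∈ s, F i).Finite := hs.biUnion fun i hi => (hF i hi).1
  refine ⟨h1, ?_⟩
  let F' : I → Finset Y := fun i => if h : i ∈ s then (hF i h).1.toFinset else ∅
  have h2 : h1.toFinset ⊆ hs.toFinset.biUnion F' := by
    intro y hy
    rw [Set.Finite.mem_toFinset, Set.mem_iUnion₂] at hy
    obtain ⟨i, hi, hy⟩ := hy
    rw [Finset.mem_biUnion]
    refine ⟨i, by simpa using hi, ?_⟩
    simp only [F', dif_pos hi, Set.Finite.mem_toFinset]
    exact hy
  rw [Set.ncard_eq_toFinset_card _ h1, Set.ncard_eq_toFinset_card _ hs]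
  refine (Finset.card_le_card h2).trans (Finset.card_biUnion_le_card_mul _ _ _ ?_)
  intro i hi
  rw [Set.Finite.mem_toFinset] at hi
  simp only [F', dif_pos hi]
  rw [← Set.ncard_eq_toFinset_card (F i) (hF i hi).1]
  exact (hF i hi).2

variable {G : Type u} [Group G] {X : Type v} [MulAction G X] {V : Type w} {π : X → V}

/-- The points over a reduced path. -/
def Ov (π : X → V) (w : List V) : Set (Xt π) := {p | p.1.2 = w}

theorem ov_card {k : ℕ} (hk : ∀ t, {x | π x = t}.Finite ∧ {x | π x = t}.ncard ≤ k)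
    (w : List V) : (Ov π w).Finite ∧ (Ov π w).ncard ≤ k := by
  rcases Set.eq_empty_or_nonempty (Ov π w) with h | ⟨p0, hp0⟩
  · rw [h]
    exact ⟨Set.finite_empty, by simp⟩
  · obtain ⟨t, ht⟩ : ∃ t, w.head? = some t := by
      have h1 : p0.1.2 = w := hp0
      exact ⟨_, by rw [← h1]; exact p0.2.2⟩
    have hmap : ∀ p ∈ Ov π w, (p : X × List V).1 ∈ {x | π x = t} := by
      intro p hp
      have h1 : p.1.2 = w := hp
      have h2 := p.2.2
      rw [h1, ht] at h2
      exact (Option.some.inj h2).symm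
    have hinj : Set.InjOn (fun p : Xt π => p.1.1) (Ov π w) := by
      intro p hp q hq h
      have h1 : p.1.2 = w := hp
      have h2 : q.1.2 = w := hq
      exact Subtype.ext (Prod.ext h (h1.trans h2.symm))
    refine ⟨Set.Finite.of_finite_image ((hk t).1.subset ?_) hinj,
      (Set.ncard_le_ncard_of_injOn _ hmap hinj (hk t).1).trans (hk t).2⟩
    rintro _ ⟨p, hp, rfl⟩
    exact hmap p hp

/-- Paths which come from steps of letters. -/
inductive St (S : Set G) (π : X → V) (v0 : V) : List V → Prop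
  | base : St S π v0 [v0]
  | cons {u : List V} {x : X} {s : G} : St S π v0 u → u.head? = some (π x) → s ∈ S →
      St S π v0 (π (s • x) :: u)

theorem st_push {S : Set G} {v0 : V} {u : List V} (h : St S π v0 u) {x : X}
    (hx : u.head? = some (π x)) {s : G} (hs : s ∈ S) : St S π v0 (push u (π (s • x))) := by
  classical
  match u, h with
  | [], h => simp at hx
  | [a], h =>
    rw [push_one]
    split_ifs
    · exact h
    · exact St.cons h hx hs
  | a :: b :: r, h =>
    rw [push_two]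
    split_ifs
    · exact h
    · cases h with
      | cons h' _ _ => exact h'
    · exact St.cons h hx hs

/-- The points with paths of a given length. -/
def Lev (S : Set G) (π : X → V) (v0 : V) (m : ℕ) : Set (Xt π) :=
  {p | p.1.2.length = m + 1 ∧ St S π v0 p.1.2}

theorem lev_card {S : Set G} (hSf : S.Finite) {k : ℕ}
    (hk : ∀ t, {x | π x = t}.Finite ∧ {x | π x = t}.ncard ≤ k) (v0 : V) (m : ℕ) :
    (Lev S π v0 m).Finite ∧ (Lev S π v0 m).ncard ≤ k * (S.ncard * k) ^ m := by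
  induction m with
  | zero =>
    have h1 : Lev S π v0 0 ⊆ Ov π [v0] := by
      rintro p ⟨hp1, hp2⟩
      show p.1.2 = [v0]
      generalize p.1.2 = u at hp1 hp2
      cases hp2 with
      | base => rfl
      | cons h _ _ =>
        cases h with
        | base => simp at hp1
        | cons _ _ _ => simp at hp1
    have h2 := ov_card hk [v0]
    refine ⟨h2.1.subset h1, (Set.ncard_le_ncard h1 h2.1).trans ?_⟩
    simpa using h2.2
  | succ m ih =>
    have h1 : Lev S π v0 (m + 1) ⊆ ⋃ q ∈ (Lev S π v0 m ×ˢ S),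
        Ov π (π (q.2 • q.1.1.1) :: q.1.1.2) := by
      rintro p ⟨hp1, hp2⟩
      have hred := p.2.1
      rw [Set.mem_iUnion₂]
      obtain ⟨u, hu⟩ : ∃ u, p.1.2 = u := ⟨_, rfl⟩
      rw [hu] at hp1 hp2 hred
      cases hp2 with
      | base => simp at hp1
      | @cons u' x s h hx hs =>
        have hne : Red u' := by
          match u', h with
          | a :: r, _ => exact red_tail hred
        refine ⟨(⟨(x, u'), hne, hx⟩, s), ⟨⟨?_, h⟩, hs⟩, hu⟩
        simpa using hp1
    have h2 := union_card (ih.1.prod hSf)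
      (fun q : Xt π × G => Ov π (π (q.2 • q.1.1.1) :: q.1.1.2)) k (fun q _ => ov_card hk _)
    refine ⟨h2.1.subset h1, (Set.ncard_le_ncard h1 h2.1).trans (h2.2.trans ?_)⟩
    rw [Set.ncard_prod]
    calc (Lev S π v0 m).ncard * S.ncard * k ≤ k * (S.ncard * k) ^ m * S.ncard * k :=
          Nat.mul_le_mul_right _ (Nat.mul_le_mul_right _ ih.2)
      _ = k * (S.ncard * k) ^ (m + 1) := by ring

/-- The action given by a homomorphism. -/
@[reducible] def actOf {Y : Type v} (Φ : G →* Equiv.Perm Y) : MulAction G Y :=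
  MulAction.compHom Y Φ

theorem proj_lift {S : Set G} (hS : Submonoid.closure S = ⊤) {Φ : G →* Equiv.Perm (Xt π)}
    (hΦ : ∀ s ∈ S, Φ s = stpP π s) (g : G) (p : Xt π) : (Φ g p).1.1 = g • p.1.1 := by
  have hg : g ∈ Submonoid.closure S := by rw [hS]; trivial
  induction hg using Submonoid.closure_induction generalizing p with
  | mem s hs => rw [hΦ s hs]; rfl
  | one => rw [map_one, one_smul]; rfl
  | mul g h _ _ ihg ihh => rw [map_mul, Equiv.Perm.mul_apply, ihg, ihh, mul_smul]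

theorem st_lift {S : Set G} (hS : Submonoid.closure S = ⊤) {Φ : G →* Equiv.Perm (Xt π)}
    (hΦ : ∀ s ∈ S, Φ s = stpP π s) {v0 : V} (g : G) (p : Xt π) (hp : St S π v0 p.1.2) :
    St S π v0 (Φ g p).1.2 := by
  have hg : g ∈ Submonoid.closure S := by rw [hS]; trivial
  induction hg using Submonoid.closure_induction generalizing p with
  | mem s hs =>
    rw [hΦ s hs]
    exact st_push hp p.2.2 hs
  | one => rw [map_one]; exact hp
  | mul g h _ _ ihg ihh =>
    rw [map_mul, Equiv.Perm.mul_apply]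
    exact ihg _ (ihh _ hp)

/-- The bound for the length of the paths. -/
theorem path_len {G : Type u} [Group G] [Group.IsFinitelyPresented G] {S : Set G}
    (hSf : S.Finite) (h1S : (1 : G) ∈ S) (hS : Submonoid.closure S = ⊤)
    (hSinv : ∀ s ∈ S, s⁻¹ ∈ S) (hno : ¬ ∃ g : G, Und S g) (k : ℕ) :
    ∃ B : ℕ, ∀ (X : Type v) [MulAction G X] (V : Type w) (π : X → V)
      (Φ : G →* Equiv.Perm (Xt π)), (∀ s ∈ S, Φ s = stpP π s) →
      (∀ t, {x | π x = t}.Finite ∧ {x | π x = t}.ncard ≤ k) →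
      ∀ (p0 : Xt π), p0.1.2.length = 1 → ∀ g : G, (Φ g p0).1.2.length ≤ B + 1 := by
  obtain ⟨C, hC0, hC⟩ := nested.{u, max v w} hSf h1S hS hSinv
  set N0 := (C * (k + 1)) ^ (C * k) with hN0
  refine ⟨C * N0, ?_⟩
  intro X _ V π Φ hΦ hk p0 hp0 g0
  by_contra hlen
  push Not at hlen
  apply hno
  let _ : MulAction G (Xt π) := actOf Φ
  have hsm : ∀ (g : G) (p : Xt π), g • p = Φ g p := fun _ _ => rfl
  set p : Xt π := Φ g0 p0 with hp
  set w := p.1.2 with hw
  obtain ⟨n, hn⟩ : ∃ n, w.length = n + 1 := ⟨w.length - 1, by omega⟩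
  have hn1 : C * N0 + 1 ≤ n := by omega
  let Cyl : ℕ → Set (Xt π) := fun a => {q | w.drop (n - a) <:+ q.1.2}
  have hcyl : ∀ a, a + 1 ≤ n → ∀ q ∈ Cyl (a + 1), ∀ s ∈ S, s • q ∈ Cyl a := by
    intro a ha q hq s hs
    have h1 : w.drop (n - (a + 1)) = w[n - (a + 1)]'(by omega) :: w.drop (n - a) := by
      rw [List.drop_eq_getElem_cons (by omega)]
      congr 2
      omega
    have h2 : w.drop (n - (a + 1)) <:+ q.1.2 := hq
    rw [h1] at h2
    show w.drop (n - a) <:+ (s • q).1.2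
    rw [hsm, hΦ s hs]
    exact suffix_push' h2 _
  have hcyl' : ∀ a, a + 1 ≤ n → Cyl (a + 1) ⊆ Cyl a := by
    intro a ha q hq
    have h1 : w.drop (n - a) <:+ w.drop (n - (a + 1)) := by
      have : n - a = (n - (a + 1)) + 1 := by omega
      rw [this, ← List.drop_drop]
      exact List.drop_suffix _ _
    exact h1.trans hq
  have hpc : ∀ a, p ∈ Cyl a := fun a => List.drop_suffix _ _
  have hfar : ∀ m : ℕ, ∀ g ∈ S ^ m, ∀ a, a + m ≤ n → ∀ z, z ∈ Cyl (a + m) →
      Conn S (Cyl (a + m)) p z → g • z ∈ Cyl a ∧ Conn S (Cyl a) p (g • z) := by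
    intro m
    induction m with
    | zero =>
      intro g hg a ha z hz hc
      rw [pow_zero] at hg
      rw [Set.mem_one.1 hg, one_smul]
      exact ⟨hz, hc⟩
    | succ m ih =>
      intro g hg a ha z hz hc
      rw [pow_succ'] at hg
      obtain ⟨s, hs, g', hg', rfl⟩ := Set.mem_mul.1 hg
      have e : a + (m + 1) = (a + 1) + m := by omega
      rw [e] at ha hz hc
      obtain ⟨h1, h2⟩ := ih g' hg' (a + 1) ha z hz hc
      have h3 := hcyl a (by omega) _ h1 s hs
      rw [mul_smul]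
      exact ⟨h3, Conn.step (h2.mono (hcyl' a (by omega))) hs h3⟩
  let E : ℕ → Set (Xt π) := fun j => comp S (Cyl (n - C * j)) p
  refine (hC (Xt π) p k N0 E ?_ ?_ ?_ ?_ ?_ le_rfl).1
  · exact fun i _ => ⟨hpc _, Conn.base⟩
  · exact fun i _ y hy => Conn.comp hy.2
  · intro i hi g hg z hz
    have h0 : C * (i + 1) ≤ C * N0 := Nat.mul_le_mul_left _ hi
    have h1 : n - C * i = (n - C * (i + 1)) + C := by
      rw [Nat.mul_succ] at h0 ⊢
      omega
    obtain ⟨hz1, hz2⟩ := hz
    rw [h1] at hz1 hz2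
    exact hfar C g hg (n - C * (i + 1)) (by omega) z hz1 hz2
  · intro i hi
    have h1 : bd S (E i) ⊆ Ov π (w.drop (n - (n - C * i))) := by
      rintro z ⟨⟨hz1, hz2⟩, s, hs, hsz⟩
      by_contra hne
      apply hsz
      have h2 : s • z ∈ Cyl (n - C * i) := by
        show _ <:+ (s • z).1.2
        rw [hsm, hΦ s hs]
        exact suffix_push hz1 _ hne
      exact ⟨h2, Conn.step hz2 hs h2⟩
    have h2 := ov_card hk (w.drop (n - (n - C * i)))
    exact ⟨h2.1.subset h1, (Set.ncard_le_ncard h1 h2.1).trans h2.2⟩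
  · refine ⟨g0⁻¹, fun h => ?_⟩
    have h1 : g0⁻¹ • p = p0 := by
      rw [hp, hsm, ← Equiv.Perm.mul_apply, ← map_mul, inv_mul_cancel, map_one]
      rfl
    rw [h1] at h
    have h2 := List.IsSuffix.length_le h.1
    rw [List.length_drop, hn, hp0] at h2
    omega

/-- **Tree-like actions have bounded orbits.** -/
theorem tree_bound {G : Type u} [Group G] [Group.IsFinitelyPresented G] {S : Set G}
    (hSf : S.Finite) (h1S : (1 : G) ∈ S) (hS : Submonoid.closure S = ⊤)
    (hSinv : ∀ s ∈ S, s⁻¹ ∈ S) (hno : ¬ ∃ g : G, Und S g) :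
    ∃ L : ℕ, ∀ k : ℕ, ∃ C : ℕ, ∀ (X : Type v) [MulAction G X] (V : Type w) (T : SimpleGraph V)
      (π : X → V), NoShort T L → (∀ t, {x | π x = t}.Finite ∧ {x | π x = t}.ncard ≤ k) →
      (∀ x : X, ∀ s ∈ S, π (s • x) = π x ∨ T.Adj (π x) (π (s • x))) →
      ∀ x : X, (MulAction.orbit G x).Finite ∧ (MulAction.orbit G x).ncard ≤ C := by
  obtain ⟨L, hL⟩ := exists_lift.{u, v, w} hSf hS hSinv
  refine ⟨L, fun k => ?_⟩
  obtain ⟨B, hB⟩ := path_len.{u, v, w} hSf h1S hS hSinv hno k
  refine ⟨(Set.Iic B).ncard * (k * (S.ncard * k + 1) ^ B), ?_⟩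
  intro X _ V T π hT hk hmv x
  obtain ⟨Φ, hΦ⟩ := hL X V T π hT hmv
  let p0 : Xt π := ⟨(x, [π x]), trivial, rfl⟩
  have hU := union_card (Set.finite_Iic B) (Lev S π (π x)) (k * (S.ncard * k + 1) ^ B)
    (fun m hm => ⟨(lev_card hSf hk (π x) m).1, (lev_card hSf hk (π x) m).2.trans
      (Nat.mul_le_mul_left _ ((Nat.pow_le_pow_left (Nat.le_succ _) _).trans
        (Nat.pow_le_pow_right (Nat.succ_pos _) hm)))⟩)
  have hsub : MulAction.orbit G x ⊆
      (fun p : Xt π => p.1.1) '' (⋃ m ∈ Set.Iic B, Lev S π (π x) m) := by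
    rintro _ ⟨g, rfl⟩
    refine ⟨Φ g p0, ?_, proj_lift hS hΦ g p0⟩
    have h1 := hB X V π Φ hΦ hk p0 rfl g
    have h2 : St S π (π x) (Φ g p0).1.2 := st_lift hS hΦ g p0 St.base
    have h3 : 0 < (Φ g p0).1.2.length := by
      cases h4 : (Φ g p0).1.2 with
      | nil =>
        have := (Φ g p0).2.2
        rw [h4] at this
        simp at this
      | cons a r => simp
    rw [Set.mem_iUnion₂]
    refine ⟨(Φ g p0).1.2.length - 1, ?_, ?_, h2⟩
    · rw [Set.mem_Iic]
      omega
    · omega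
  refine ⟨(hU.1.image _).subset hsub, (Set.ncard_le_ncard hsub (hU.1.image _)).trans ?_⟩
  exact (Set.ncard_image_le hU.1).trans hU.2

end Pool.Agent.T6.H10.MG
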