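import Pool.Agent.T6.H10.MG.Cut
import Pool.Agent.R673.MG.Types

/-!
# Groups without elements with linearly growing powers
-/

set_option autoImplicit false

open scoped Pointwise

namespace Pool.Agent.T6.H10.MG

open Pool.Agent.H71R2.Thin

universe u v

variable {G : Type u} [Group G]

theorem und_order {S : Set G} {g : G} (h : Und S g) {n : ℕ} (hn : 0 < n) : g ^ n ≠ 1 := by
  intro h1
  have := h n 0 (by rw [pow_zero, h1]; exact Set.mem_one.2 rfl)
  omega

theorem no_und_of_torsion {S : Set G} (h : ∀ g : G, ∃ n, 0 < n ∧ g ^ n = 1) :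
    ¬ ∃ g : G, Und S g := by
  rintro ⟨g, hg⟩
  obtain ⟨n, hn, h1⟩ := h g
  exact und_order hg hn h1

theorem not_vz_of_no_fi (h : ∀ H : Subgroup G, H.FiniteIndex → H = ⊤) : ¬ VZ G := by
  rintro ⟨K, hK, f, hf⟩
  obtain rfl := h K hK
  let q : Multiplicative ℤ →* Multiplicative (ZMod 2) :=
    AddMonoidHom.toMultiplicative (Int.castAddHom (ZMod 2))
  let F : G →* Multiplicative (ZMod 2) := (q.comp f).comp Subgroup.topEquiv.symm.toMonoidHom
  have h1 : F.ker.FiniteIndex := by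
    have : Finite F.range := inferInstance
    infer_instance
  have h2 := h _ h1
  obtain ⟨x, hx⟩ := hf (Multiplicative.ofAdd 1)
  have h3 : (x : G) ∈ F.ker := by rw [h2]; trivial
  rw [MonoidHom.mem_ker] at h3
  have h4 : F (x : G) = q (f x) := by
    show q (f (Subgroup.topEquiv.symm (x : G))) = q (f x)
    congr 2
  rw [h4, hx] at h3
  have h5 : ((1 : ℤ) : ZMod 2) = 0 := h3
  exact absurd h5 (by decide)

/-- In a group with finitely many conjugacy classes two different positive powers of every element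
are conjugate. -/
theorem conj_pow [Finite (ConjClasses G)] (g : G) :
    ∃ (a b : ℕ) (c : G), 0 < a ∧ a < b ∧ c * g ^ a * c⁻¹ = g ^ b := by
  obtain ⟨i, j, hne, hij⟩ := Finite.exists_ne_map_eq_of_infinite
    (fun n : ℕ => ConjClasses.mk (g ^ (n + 1)))
  have key : ∀ i j : ℕ, i < j → ConjClasses.mk (g ^ (i + 1)) = ConjClasses.mk (g ^ (j + 1)) →
      ∃ (a b : ℕ) (c : G), 0 < a ∧ a < b ∧ c * g ^ a * c⁻¹ = g ^ b := by
    intro i j hlt h
    rw [ConjClasses.mk_eq_mk_iff_isConj, isConj_iff] at h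
    obtain ⟨c, hc⟩ := h
    exact ⟨i + 1, j + 1, c, by omega, by omega, hc⟩
  rcases lt_or_gt_of_ne hne with h | h
  · exact key i j h hij
  · exact key j i h hij.symm

theorem conj_iter {g c : G} {a b : ℕ} (h : c * g ^ a * c⁻¹ = g ^ b) (j : ℕ) :
    c ^ j * g ^ (a ^ j) * (c ^ j)⁻¹ = g ^ (b ^ j) := by
  induction j with
  | zero => simp
  | succ j ih =>
    have e1 : c ^ j * (g ^ (a ^ j)) ^ a * (c ^ j)⁻¹ = (g ^ (b ^ j)) ^ a := by
      rw [← ih, conj_pow']
    calc c ^ (j + 1) * g ^ (a ^ (j + 1)) * (c ^ (j + 1))⁻¹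
        = c * (c ^ j * (g ^ (a ^ j)) ^ a * (c ^ j)⁻¹) * c⁻¹ := by
          rw [← pow_mul, ← pow_succ, pow_succ' c j]
          group
      _ = c * (g ^ (b ^ j)) ^ a * c⁻¹ := by rw [e1]
      _ = (c * g ^ a * c⁻¹) ^ (b ^ j) := by
          rw [conj_pow'', ← pow_mul, ← pow_mul, mul_comm]
      _ = g ^ (b ^ (j + 1)) := by
          rw [h, ← pow_mul, ← pow_succ']
where
  conj_pow' {x y : G} {n : ℕ} : (x * y * x⁻¹) ^ n = x * y ^ n * x⁻¹ := by
    induction n with
    | zero => simp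
    | succ n ih => rw [pow_succ, ih, pow_succ]; group
  conj_pow'' {x y : G} {n : ℕ} : (x * y * x⁻¹) ^ n = x * y ^ n * x⁻¹ := conj_pow'

theorem no_und_of_conj [Finite (ConjClasses G)] {S : Set G} (h1S : (1 : G) ∈ S)
    (hS : Submonoid.closure S = ⊤) : ¬ ∃ g : G, Und S g := by
  rintro ⟨g, hg⟩
  obtain ⟨a, b, c, ha, hab, hc⟩ := conj_pow g
  obtain ⟨l, hl, hKS⟩ := exists_pow h1S hS (K := {c, c⁻¹, g}) (by simp)
  have hcl : c ∈ S ^ l := hKS (by simp)
  have hcl' : c⁻¹ ∈ S ^ l := hKS (by simp)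
  have hgl : g ∈ S ^ l := hKS (by simp)
  have hpow : ∀ {x : G}, x ∈ S ^ l → ∀ n : ℕ, x ^ n ∈ S ^ (l * n) := by
    intro x hx n
    rw [pow_mul]
    exact Set.pow_mem_pow hx
  have h1 : ∀ j : ℕ, b ^ j ≤ l * (2 * j + a ^ j) := by
    intro j
    refine hg _ _ ?_
    rw [← conj_iter hc j]
    have e : l * (2 * j + a ^ j) = l * j + l * a ^ j + l * j := by ring
    rw [e, pow_add, pow_add, ← inv_pow]
    exact Set.mul_mem_mul (Set.mul_mem_mul (hpow hcl j) (hpow hgl _)) (hpow hcl' j)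
  -- growth comparison
  have hr : (1 : ℝ) < (b : ℝ) / a := by
    rw [one_lt_div (by exact_mod_cast ha)]
    exact_mod_cast hab
  have ht := tendsto_pow_const_div_const_pow_of_one_lt 1 hr
  have hev := (ht.eventually (gt_mem_nhds (show (0 : ℝ) < 1 / (3 * l) by positivity))).and
    (Filter.eventually_ge_atTop 1)
  obtain ⟨j, hj, hj1⟩ := hev.exists
  have hra : (0 : ℝ) < (a : ℝ) ^ j := by positivity
  have h2 : ((b : ℝ) / a) ^ j = (b : ℝ) ^ j / (a : ℝ) ^ j := div_pow _ _ _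
  have hb0 : (0 : ℝ) < (b : ℝ) ^ j := by
    have : 0 < b := by omega
    positivity
  rw [pow_one, h2, div_lt_div_iff₀ (by positivity) (by positivity), one_mul] at hj
  rw [lt_div_iff₀ hra] at hj
  have h3 : (b : ℝ) ^ j ≤ l * (2 * j + (a : ℝ) ^ j) := by exact_mod_cast h1 j
  have h4 : (1 : ℝ) ≤ (a : ℝ) ^ j := one_le_pow₀ (by exact_mod_cast ha)
  have hj1' : (1 : ℝ) ≤ j := by exact_mod_cast hj1
  have hl' : (0 : ℝ) < l := by exact_mod_cast hl
  have h5 : (l : ℝ) * (2 * j + (a : ℝ) ^ j) ≤ j * (3 * l) * (a : ℝ) ^ j := by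
    have h6 : (2 * j + (a : ℝ) ^ j) ≤ 3 * j * (a : ℝ) ^ j := by nlinarith
    calc (l : ℝ) * (2 * j + (a : ℝ) ^ j) ≤ l * (3 * j * (a : ℝ) ^ j) :=
          mul_le_mul_of_nonneg_left h6 hl'.le
      _ = j * (3 * l) * (a : ℝ) ^ j := by ring
  linarith

end Pool.Agent.T6.H10.MG
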