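import Pool.Agent.H71R2.Thin.Gap

/-!
# Periodic actions from two nested matching cuts, and elements translating along them

`exists_K2` is `exists_K` of the starting files with control of the crossing points and of the levels.
The set `B \ A` between the cuts may be infinite.
-/

set_option autoImplicit false

open scoped Pointwise

namespace Pool.Agent.T6.H10.MG

open Pool.Agent.H71R2.Thin

universe u v

/-- The powers of `g` grow linearly with respect to `S`. -/
def Und {G : Type u} [Group G] (S : Set G) (g : G) : Prop := ∀ n m : ℕ, g ^ n ∈ S ^ m → n ≤ m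

/-- The property of `K` provided by `exists_K2`. -/
def Good2 {G : Type u} [Group G] (S K : Set G) : Prop :=
  ∀ (X : Type v) [MulAction G X] (x0 : X) (A B : Set X) (θ θ' : X → X),
    Glue K A B θ θ' → (∀ y ∈ B, Conn S B x0 y) → x0 ∈ A →
    ∃ Φ : G →* Equiv.Perm (Y A B),
      (∀ g n p, Φ g (sh A B n p) = sh A B n (Φ g p)) ∧
      (∀ p : Y A B, ∃ g : G, (Φ g p).1.2 = p.1.2 - 1 ∧ (Φ g p).1.1 ∈ bd K B) ∧
      (∀ s ∈ S, ∀ p : Y A B, p.1.2 - 1 ≤ (Φ s p).1.2)

theorem exists_K2 {G : Type u} [Group G] [Group.IsFinitelyPresented G]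
    {S : Set G} (hSf : S.Finite) (hS : Submonoid.closure S = ⊤) (hSinv : ∀ s ∈ S, s⁻¹ ∈ S) :
    ∃ K : Set G, K.Finite ∧ (1 : G) ∈ K ∧ (∀ k ∈ K, k⁻¹ ∈ K) ∧ S ⊆ K ∧ Good2.{u, v} S K := by
  classical
  obtain ⟨T, hT⟩ := fp_extend.{u, v} (G := G) hSf.toFinset
  set K0 : Finset G := insert 1 (hSf.toFinset ∪ T ∪ T * T) with hK0
  set K : Set G := (K0 : Set G) ∪ (K0 : Set G)⁻¹ with hKdef
  have hKf : K.Finite := K0.finite_toSet.union K0.finite_toSet.inv
  have h1K : (1 : G) ∈ K := Or.inl (by simp [hK0])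
  have hKinv : ∀ k ∈ K, k⁻¹ ∈ K := by
    rintro k (hk | hk)
    · exact Or.inr (by rw [Set.mem_inv, inv_inv]; exact hk)
    · exact Or.inl hk
  have hSK : S ⊆ K := fun s hs => Or.inl (by simp [hK0, hs])
  have hTK : ∀ t ∈ T, t ∈ K := fun t ht => Or.inl (by simp [hK0, ht])
  have hTTK : ∀ t ∈ T, ∀ t' ∈ T, t * t' ∈ K := fun t ht t' ht' => Or.inl (by
    have : t * t' ∈ T * T := Finset.mul_mem_mul ht ht'
    rw [Finset.mem_coe, hK0]
    exact Finset.mem_insert_of_mem (Finset.mem_union_right _ this))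
  refine ⟨K, hKf, h1K, hKinv, hSK, ?_⟩
  intro X _ x0 A B θ θ' hG hP hx0
  obtain ⟨Φ, hΦ⟩ := hT (Equiv.Perm (Y A B)) hG.f (fun x hx y hy =>
    hG.f_mul (hTK x hx) (hTK y hy) (hTTK x hx y hy))
  have hΦS : ∀ s ∈ S, Φ s = hG.f s := fun s hs => hΦ s (by simp [hs])
  refine ⟨Φ, ?_, ?_, ?_⟩
  · intro g
    have hg : g ∈ Submonoid.closure S := by rw [hS]; trivial
    induction hg using Submonoid.closure_induction with
    | mem s hs =>
      intro n p
      rw [hΦS s hs]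
      apply Subtype.ext
      rw [hG.f_apply (hSK hs)]
      change _ = ((hG.f s p : X × ℤ).1, (hG.f s p : X × ℤ).2 + n)
      rw [hG.f_apply (hSK hs)]
      obtain ⟨⟨x, k⟩, hp⟩ := p
      change M A B θ θ' s (x, k + n) = _
      rw [M_shift s x (k + n), M_shift s x k]
      simp only [add_assoc]
    | one => intro n p; rw [map_one]; rfl
    | mul g g' _ _ ih ih' =>
      intro n p
      rw [map_mul, Equiv.Perm.mul_apply, ih', ih, Equiv.Perm.mul_apply]
  · have key : ∀ y, Conn S B x0 y → ∀ (k : ℤ) (hy : (y, k) ∈ Y A B),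
        ∃ g : G, (Φ g ⟨(y, k), hy⟩).1.2 = k - 1 ∧ (Φ g ⟨(y, k), hy⟩).1.1 ∈ bd K B := by
      intro y hy
      induction hy with
      | base => exact fun k hy => absurd hx0 hy.2
      | @step x s hx hs hsx ih =>
        intro k hy
        have hs' := hSinv s hs
        have e := hG.f_apply (hSK hs') ⟨(s • x, k), hy⟩
        by_cases hxA : x ∈ A
        · have hbx : x ∈ bd K A := ⟨hxA, s, hSK hs, hy.2⟩
          refine ⟨s⁻¹, ?_⟩
          rw [hΦS _ hs', e]
          rw [M_of_mem_A (by rwa [inv_smul_smul]), inv_smul_smul]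
          exact ⟨rfl, hG.map 0 (by norm_num) x hbx⟩
        · have hxB : x ∈ B := by
            cases hx with
            | base => exact absurd hx0 hxA
            | step _ _ h => exact h
          obtain ⟨g, hg⟩ := ih k ⟨hxB, hxA⟩
          refine ⟨g * s⁻¹, ?_⟩
          have e2 : Φ s⁻¹ ⟨(s • x, k), hy⟩ = ⟨(x, k), ⟨hxB, hxA⟩⟩ := by
            apply Subtype.ext
            rw [hΦS _ hs', e]
            rw [M_of_mem (by rwa [inv_smul_smul]) (by rwa [inv_smul_smul]), inv_smul_smul]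
          rw [map_mul, Equiv.Perm.mul_apply, e2]
          exact hg
    rintro ⟨⟨y, k⟩, hy⟩
    exact key y (hP y hy.1) k hy
  · intro s hs p
    rw [hΦS s hs, hG.f_apply (hSK hs)]
    obtain ⟨⟨x, k⟩, hp⟩ := p
    simp only
    unfold M
    split_ifs
    · simp
    · simp
    · simp only
      linarith

section Data

variable {G : Type u} [Group G] {X : Type v} {S : Set G} {A B D : Set X}
  (Φ : G →* Equiv.Perm (Y A B))

/-- The trivial action (the library constructions for `Y A B` ask for some action). -/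
@[instance_reducible] def triv (G : Type u) [Group G] (X : Type v) : MulAction G X :=
  { smul := fun _ x => x
    one_smul := fun _ => rfl
    mul_smul := fun _ _ _ => rfl }

theorem lower {hlip : ∀ s ∈ S, ∀ p : Y A B, p.1.2 - 1 ≤ (Φ s p).1.2} (n : ℕ) (g : G)
    (hg : g ∈ S ^ n) (p : Y A B) : p.1.2 - n ≤ (Φ g p).1.2 := by
  induction n generalizing g with
  | zero =>
    rw [pow_zero] at hg
    rw [Set.mem_one.1 hg, map_one]
    simp
  | succ n ih =>
    rw [pow_succ'] at hg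
    obtain ⟨s, hs, g', hg', rfl⟩ := Set.mem_mul.1 hg
    rw [map_mul, Equiv.Perm.mul_apply]
    have h1 := ih g' hg'
    have h2 := hlip s hs (Φ g' p)
    push_cast
    linarith

include Φ in
theorem exists_trans (hD : D.Finite)
    (hsh : ∀ g n p, Φ g (sh A B n p) = sh A B n (Φ g p))
    (hdesc : ∀ p : Y A B, ∃ g : G, (Φ g p).1.2 = p.1.2 - 1 ∧ (Φ g p).1.1 ∈ D)
    (hne : ∃ z, z ∈ B ∧ z ∉ A) :
    ∃ (q : Q A B) (g : G) (m : ℕ), 0 < m ∧ Φ g (lf q 0) = lf q (-(m : ℤ)) := by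
  classical
  obtain ⟨z, hz⟩ := hne
  have h1 : ∀ n : ℕ, ∃ h : G, (Φ h (lf ⟨z, hz⟩ 0)).1.2 = -((n : ℤ) + 1) ∧
      (Φ h (lf ⟨z, hz⟩ 0)).1.1 ∈ D := by
    intro n
    induction n with
    | zero =>
      obtain ⟨g, hg, hgD⟩ := hdesc (lf ⟨z, hz⟩ 0)
      refine ⟨g, ?_, hgD⟩
      rw [hg]
      simp [lf]
    | succ n ih =>
      obtain ⟨h, hh, _⟩ := ih
      obtain ⟨g, hg, hgD⟩ := hdesc (Φ h (lf ⟨z, hz⟩ 0))
      refine ⟨g * h, ?_, ?_⟩
      · rw [map_mul, Equiv.Perm.mul_apply, hg, hh]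
        push_cast
        ring
      · rw [map_mul, Equiv.Perm.mul_apply]
        exact hgD
  choose h hh hD' using h1
  have : Finite D := hD.to_subtype
  obtain ⟨i, j, hne, hij⟩ := Finite.exists_ne_map_eq_of_infinite
    (fun n : ℕ => (⟨(Φ (h n) (lf ⟨z, hz⟩ 0)).1.1, hD' n⟩ : D))
  have key : ∀ i j : ℕ, i < j → (Φ (h i) (lf ⟨z, hz⟩ 0)).1.1 = (Φ (h j) (lf ⟨z, hz⟩ 0)).1.1 →
      ∃ (q : Q A B) (g : G) (m : ℕ), 0 < m ∧ Φ g (lf q 0) = lf q (-(m : ℤ)) := by
    intro i j hlt he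
    set p := Φ (h i) (lf ⟨z, hz⟩ 0) with hp
    set p' := Φ (h j) (lf ⟨z, hz⟩ 0) with hp'
    have e1 : pj p = pj p' := Subtype.ext he
    have e2 : p = lf (pj p) (-((i : ℤ) + 1)) := by rw [← hh i, ← hp]; exact (lf_eq p).symm
    have e3 : p' = lf (pj p) (-((j : ℤ) + 1)) := by
      rw [e1, ← hh j, ← hp']; exact (lf_eq p').symm
    refine ⟨pj p, h j * (h i)⁻¹, j - i, by omega, ?_⟩
    have e4 : Φ (h j * (h i)⁻¹) p = p' := by
      rw [map_mul, Equiv.Perm.mul_apply, hp, ← Equiv.Perm.mul_apply (Φ (h i)⁻¹), ← map_mul,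
        inv_mul_cancel, map_one, Equiv.Perm.one_apply]
    have e5 : lf (pj p) 0 = sh A B ((i : ℤ) + 1) p := by
      conv_rhs => rw [e2]
      rw [sh_lf]
      congr 1
      ring
    rw [e5, hsh, e4, e3, sh_lf]
    congr 1
    rw [Nat.cast_sub hlt.le]
    ring
  rcases lt_or_gt_of_ne hne with h' | h'
  · exact key i j h' (congrArg Subtype.val hij)
  · exact key j i h' (congrArg Subtype.val hij).symm

theorem pow_trans (hsh : ∀ g n p, Φ g (sh A B n p) = sh A B n (Φ g p)) {q : Q A B} {g : G} {m : ℕ}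
    (hg : Φ g (lf q 0) = lf q (-(m : ℤ))) (n : ℕ) : Φ (g ^ n) (lf q 0) = lf q (-((n * m : ℕ) : ℤ)) := by
  induction n with
  | zero => rw [pow_zero, map_one]; simp
  | succ n ih =>
    rw [pow_succ', map_mul, Equiv.Perm.mul_apply, ih]
    have e : lf q (-((n * m : ℕ) : ℤ)) = sh A B (-((n * m : ℕ) : ℤ)) (lf q 0) := by
      rw [sh_lf, zero_add]
    rw [e, hsh, hg, sh_lf]
    congr 1
    push_cast
    ring

theorem und_of_data (hD : D.Finite)
    (hsh : ∀ g n p, Φ g (sh A B n p) = sh A B n (Φ g p))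
    (hdesc : ∀ p : Y A B, ∃ g : G, (Φ g p).1.2 = p.1.2 - 1 ∧ (Φ g p).1.1 ∈ D)
    (hlip : ∀ s ∈ S, ∀ p : Y A B, p.1.2 - 1 ≤ (Φ s p).1.2)
    (hne : ∃ z, z ∈ B ∧ z ∉ A) :
    (∃ g : G, Und S g) ∧ ((B \ A).Finite → VZ G) := by
  obtain ⟨q, g, m, hm, hg⟩ := exists_trans Φ hD hsh hdesc hne
  refine ⟨⟨g, fun n k hk => ?_⟩, fun hfin => ?_⟩
  · have h1 := lower Φ (hlip := hlip) k (g ^ n) hk (lf q 0)
    rw [pow_trans Φ hsh hg] at h1
    simp only [lf] at h1
    have h2 : (n * m : ℕ) ≤ k := by omega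
    exact (Nat.le_mul_of_pos_right n hm).trans h2
  · let _ : MulAction G X := triv G X
    have hQ : Finite (Q A B) := hfin.to_subtype
    have hfi : (toQ Φ hsh).ker.FiniteIndex := by
      have : Finite (toQ Φ hsh).range := inferInstance
      infer_instance
    obtain ⟨N, hN, hN1⟩ := Subgroup.exists_pow_mem_of_index_ne_zero hfi.index_ne_zero g
    have hne1 : disp Φ hsh q ≠ 1 := by
      intro h
      have h1 := DFunLike.congr_fun h ⟨g ^ N, hN1.2⟩
      have h2 : (Φ (g ^ N) (lf q 0)).1.2 = 0 := h1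
      rw [pow_trans Φ hsh hg] at h2
      simp only [lf] at h2
      have h3 : 0 < N * m := Nat.mul_pos hN hm
      omega
    obtain ⟨f, hf⟩ := surj_of_ne_one _ hne1
    exact ⟨(toQ Φ hsh).ker, hfi, f, hf⟩

end Data

end Pool.Agent.T6.H10.MG
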