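import Pool.Agent.T6.H10.MG.Cut

/-!
# Many nested cuts of bounded size
-/

set_option autoImplicit false

open scoped Pointwise

namespace Pool.Agent.T6.H10.MG

open Pool.Agent.H71R2.Thin

universe u v

variable {G : Type u} [Group G] {X : Type v} [MulAction G X]

/-- A chain of nested connected sets with small boundaries which are far from each other, whose
length exceeds the number of patterns, yields an element with linearly growing powers. -/
theorem many_cuts {S K : Set G} (hKf : K.Finite) (h1K : (1 : G) ∈ K)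
    (hKinv : ∀ k ∈ K, k⁻¹ ∈ K) (hgood : Good2.{u, v} S K) (x0 : X) (C N : ℕ) (E : ℕ → Set X)
    (hx0 : ∀ i ≤ N, x0 ∈ E i) (hconn : ∀ i ≤ N, ∀ y ∈ E i, Conn S (E i) x0 y)
    (hfar : ∀ i < N, ∀ g ∈ K ^ 5, ∀ x ∈ E i, g • x ∈ E (i + 1))
    (hbf : ∀ i ≤ N, (bd K (E i)).Finite) (hbn : ∀ i ≤ N, (bd K (E i)).Nonempty)
    (hbc : ∀ i ≤ N, (bd K (E i)).ncard ≤ C) (hN : Np (K ^ 4).ncard C ≤ N) :
    (∃ g : G, Und S g) ∧ ((E N \ E 0).Finite → VZ G) := by
  classical
  have hmono : ∀ j ≤ N, ∀ i ≤ j, E i ⊆ E j := by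
    intro j
    induction j with
    | zero => intro _ i hi; rw [Nat.le_zero.1 hi]
    | succ j ih =>
      intro hj i hi
      rcases Nat.lt_or_ge i (j + 1) with h | h
      · refine (ih (by omega) i (by omega)).trans fun x hx => ?_
        have := hfar j (by omega) 1 (Set.one_mem_pow h1K) x hx
        rwa [one_smul] at this
      · rw [le_antisymm hi h]
  have hfar' : ∀ i j, i < j → j ≤ N → ∀ g ∈ K ^ 5, ∀ x ∈ E i, g • x ∈ E j := by
    intro i j hij hj g hg x hx
    exact hmono j hj (i + 1) hij (hfar i (by omega) g hg x hx)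
  have hd : ∀ i, ∃ d : Fin C → X, i ≤ N → Set.range d = bd K (E i) := by
    intro i
    by_cases hi : i ≤ N
    · obtain ⟨d, hd⟩ := exists_range_eq (hbf i hi) (hbn i hi) (hbc i hi)
      exact ⟨d, fun _ => hd⟩
    · exact ⟨fun _ => x0, fun h => absurd h hi⟩
  choose d hd using hd
  -- the set of labels
  let T := {g : G // g ∈ K ^ 4}
  have hTf : Finite T := (finite_pow hKf 4).to_subtype
  have : Fintype T := Fintype.ofFinite T
  have hTcard : Fintype.card T = (K ^ 4).ncard := by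
    rw [← Nat.card_eq_fintype_card]
    rfl
  have hCne : Nonempty (T × Fin C) := by
    obtain ⟨y, hy⟩ := hbn 0 (Nat.zero_le _)
    rw [← hd 0 (Nat.zero_le _)] at hy
    obtain ⟨a, _⟩ := hy
    exact ⟨(⟨1, Set.one_mem_pow h1K⟩, a)⟩
  let f : ℕ → T × Fin C → X := fun j p => p.1.1 • d j p.2
  let rep : ℕ → T × Fin C → T × Fin C := fun j p => Function.invFun (f j) (f j p)
  have hrep : ∀ j p, f j (rep j p) = f j p := fun j p => Function.invFun_eq ⟨p, rfl⟩
  have hker : ∀ j p q, f j p = f j q ↔ rep j p = rep j q := by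
    intro j p q
    constructor
    · intro h
      change Function.invFun (f j) (f j p) = Function.invFun (f j) (f j q)
      rw [h]
    · intro h
      rw [← hrep j p, ← hrep j q, h]
  let pat : ℕ → (T × Fin C → T × Fin C) × (T × Fin C → Bool) := fun j =>
    (rep j, fun p => decide (f j p ∈ E j))
  have hcard : (Finset.univ : Finset ((T × Fin C → T × Fin C) × (T × Fin C → Bool))).card
      < (Finset.range (N + 1)).card := by
    rw [Finset.card_range]
    refine lt_of_eq_of_lt ?_ (Nat.lt_succ_of_le hN)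
    rw [Finset.card_univ, Fintype.card_prod, Fintype.card_fun, Fintype.card_fun,
      Fintype.card_prod, Fintype.card_fin, Fintype.card_bool, hTcard]
    rfl
  obtain ⟨i, j, hi, hj, hij, hpat⟩ : ∃ i j, i ≤ N ∧ j ≤ N ∧ i < j ∧ pat i = pat j := by
    obtain ⟨i, hi, j, hj, hne, h⟩ := Finset.exists_ne_map_eq_of_card_lt_of_maps_to hcard
      (f := pat) (fun a _ => Finset.mem_univ _)
    rw [Finset.mem_range] at hi hj
    rcases lt_or_gt_of_ne hne with h' | h'
    · exact ⟨i, j, by omega, by omega, h', h⟩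
    · exact ⟨j, i, by omega, by omega, h', h.symm⟩
  have hp1 : rep i = rep j := congrArg Prod.fst hpat
  have hp2 := congrArg Prod.snd hpat
  obtain ⟨θ, θ', hglue, _⟩ := glue_of_pattern h1K hKinv (hfar' i j hij hj) (d i) (d j)
    (hd i hi) (hd j hj)
    (fun g hg g' hg' a b => by
      have h1 := hker i (⟨g, hg⟩, a) (⟨g', hg'⟩, b)
      have h2 := hker j (⟨g, hg⟩, a) (⟨g', hg'⟩, b)
      rw [hp1] at h1
      exact h1.trans h2.symm)
    (fun g hg a => by
      have h1 := congrFun hp2 (⟨g, hg⟩, a)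
      exact decide_eq_decide.1 h1)
  obtain ⟨Φ, hsh, hdesc, hlip⟩ := hgood X x0 _ _ θ θ' hglue (hconn j hj) (hx0 i hi)
  have h1 := und_of_data Φ (hbf j hj) hsh hdesc hlip (by
    obtain ⟨x, hx, k, hk, hkx⟩ := hbn i hi
    refine ⟨k • x, ?_, hkx⟩
    refine hfar' i j hij hj k ?_ x hx
    have : K ^ 1 ⊆ K ^ 5 := pow_mono h1K (by norm_num)
    exact this (by rwa [pow_one]))
  refine ⟨h1.1, fun hfin => h1.2 (hfin.subset ?_)⟩
  rintro x ⟨hx1, hx2⟩
  exact ⟨hmono N le_rfl j hj hx1, fun h => hx2 (hmono i hi 0 (Nat.zero_le _) h)⟩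

/-- The boundary with respect to `K` lies in a neighbourhood of the boundary with respect to `S`. -/
theorem bd_sub {S K : Set G} (h1S : (1 : G) ∈ S) (hSinv : ∀ s ∈ S, s⁻¹ ∈ S) {l : ℕ}
    (hKS : K ⊆ S ^ l) (E : Set X) : bd K E ⊆ (S ^ l) • bd S E := by
  have key : ∀ n : ℕ, ∀ g ∈ S ^ n, ∀ x ∈ E, g • x ∉ E →
      ∃ m ≤ n, ∃ h ∈ S ^ m, h • x ∈ bd S E := by
    intro n
    induction n with
    | zero =>
      intro g hg x hx hgx
      rw [pow_zero] at hg
      rw [Set.mem_one.1 hg, one_smul] at hgx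
      exact absurd hx hgx
    | succ n ih =>
      intro g hg x hx hgx
      rw [pow_succ'] at hg
      obtain ⟨s, hs, g', hg', rfl⟩ := Set.mem_mul.1 hg
      by_cases h : g' • x ∈ E
      · exact ⟨n, by omega, g', hg', h, s, hs, by rwa [mul_smul] at hgx⟩
      · obtain ⟨m, hm, h', h1, h2⟩ := ih g' hg' x hx h
        exact ⟨m, by omega, h', h1, h2⟩
  rintro x ⟨hx, k, hk, hkx⟩
  obtain ⟨m, hm, h, hh, hb⟩ := key l k (hKS hk) x hx hkx
  refine Set.mem_smul.2 ⟨h⁻¹, inv_mem_pow hSinv (pow_mono h1S hm hh), h • x, hb, ?_⟩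
  exact inv_smul_smul h x

theorem bd_count {S K : Set G} (hSf : S.Finite) (h1S : (1 : G) ∈ S) (hSinv : ∀ s ∈ S, s⁻¹ ∈ S)
    {l : ℕ} (hKS : K ⊆ S ^ l) (E : Set X) (hE : (bd S E).Finite) :
    (bd K E).Finite ∧ (bd K E).ncard ≤ (S ^ l).ncard * (bd S E).ncard := by
  have hf := finite_pow hSf l
  have h1 : ((S ^ l) • bd S E).Finite := hf.smul hE
  have h2 := bd_sub h1S hSinv hKS E
  refine ⟨h1.subset h2, (Set.ncard_le_ncard h2 h1).trans ?_⟩
  have h3 : (S ^ l) • bd S E = (fun p : G × X => p.1 • p.2) '' ((S ^ l) ×ˢ bd S E) := by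
    ext x
    simp only [Set.mem_smul, Set.mem_image, Set.mem_prod, Prod.exists]
    constructor
    · rintro ⟨a, ha, b, hb, rfl⟩
      exact ⟨a, b, ⟨ha, hb⟩, rfl⟩
    · rintro ⟨a, b, ⟨ha, hb⟩, rfl⟩
      exact ⟨a, ha, b, hb, rfl⟩
  rw [h3, ← Set.ncard_prod]
  exact Set.ncard_image_le (hf.prod hE)

/-- A set containing `x0` which has no boundary contains the orbit of `x0`. -/
theorem bd_ne {S K : Set G} (hS : Submonoid.closure S = ⊤) (hSK : S ⊆ K) {E : Set X} {x0 : X}
    (hx0 : x0 ∈ E) (hE : ∃ g : G, g • x0 ∉ E) : (bd K E).Nonempty := by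
  by_contra hcon
  rw [Set.not_nonempty_iff_eq_empty] at hcon
  obtain ⟨g, hg⟩ := hE
  apply hg
  have h1 : ∀ x ∈ E, g • x ∈ E := by
    have hg' : g ∈ Submonoid.closure S := by rw [hS]; trivial
    clear hg
    induction hg' using Submonoid.closure_induction with
    | mem s hs =>
      intro x hx
      by_contra h
      have : x ∈ bd K E := ⟨hx, s, hSK hs, h⟩
      rw [hcon] at this
      exact this
    | one => intro x hx; rwa [one_smul]
    | mul g h _ _ ihg ihh =>
      intro x hx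
      rw [mul_smul]
      exact ihg _ (ihh x hx)
  exact h1 x0 hx0

theorem np_bound (t a s : ℕ) : Np t (a * s) ≤ (2 * t * a * s + 2 * t * a + 1) ^ (2 * t * a * s) := by
  unfold Np
  have e1 : 2 * t * a * s = 2 * (t * (a * s)) := by ring
  have h1 : t * (a * s) ≤ 2 * t * a * s + 2 * t * a + 1 := by omega
  have h2 : (2 : ℕ) ≤ 2 * t * a * s + 2 * t * a + 1 ∨ t * (a * s) = 0 := by
    rcases Nat.eq_zero_or_pos (t * (a * s)) with h | h
    · exact Or.inr h
    · left; omega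
  rcases h2 with h2 | h2
  · calc (t * (a * s)) ^ (t * (a * s)) * 2 ^ (t * (a * s))
        ≤ (2 * t * a * s + 2 * t * a + 1) ^ (t * (a * s)) *
          (2 * t * a * s + 2 * t * a + 1) ^ (t * (a * s)) :=
          Nat.mul_le_mul (Nat.pow_le_pow_left h1 _) (Nat.pow_le_pow_left h2 _)
      _ = (2 * t * a * s + 2 * t * a + 1) ^ (2 * t * a * s) := by
          rw [← pow_add]
          congr 1
          ring
  · rw [h2]
    simp only [pow_zero, mul_one]
    exact Nat.one_le_pow _ _ (by omega)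

/-- The theorem on nested cuts, in terms of a generating set. -/
theorem nested {G : Type u} [Group G] [Group.IsFinitelyPresented G] {S : Set G} (hSf : S.Finite)
    (h1S : (1 : G) ∈ S) (hS : Submonoid.closure S = ⊤) (hSinv : ∀ s ∈ S, s⁻¹ ∈ S) :
    ∃ C : ℕ, 0 < C ∧ ∀ (X : Type v) [MulAction G X] (x0 : X) (s N : ℕ) (E : ℕ → Set X),
      (∀ i ≤ N, x0 ∈ E i) → (∀ i ≤ N, ∀ y ∈ E i, Conn S (E i) x0 y) →
      (∀ i < N, ∀ g ∈ S ^ C, ∀ x ∈ E i, g • x ∈ E (i + 1)) →
      (∀ i ≤ N, (bd S (E i)).Finite ∧ (bd S (E i)).ncard ≤ s) → (∃ g : G, g • x0 ∉ E N) →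
      (C * (s + 1)) ^ (C * s) ≤ N →
      (∃ g : G, Und S g) ∧ ((E N \ E 0).Finite → VZ G) := by
  obtain ⟨K, hKf, h1K, hKinv, hSK, hgood⟩ := exists_K2.{u, v} hSf hS hSinv
  obtain ⟨l, hl, hKS⟩ := exists_pow h1S hS hKf
  set t := (K ^ 4).ncard with ht
  set a := (S ^ l).ncard with ha
  refine ⟨5 * l + 2 * t * a + 1, by omega, ?_⟩
  intro X _ x0 s N E hx0 hconn hfar hbd hprop hN
  have hK5 : K ^ 5 ⊆ S ^ (5 * l + 2 * t * a + 1) := by
    have h1 : K ^ 5 ⊆ (S ^ l) ^ 5 := Set.pow_subset_pow_left hKS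
    rw [← pow_mul] at h1
    exact h1.trans (pow_mono h1S (by nlinarith))
  have hfar' : ∀ i < N, ∀ g ∈ K ^ 5, ∀ x ∈ E i, g • x ∈ E (i + 1) :=
    fun i hi g hg x hx => hfar i hi g (hK5 hg) x hx
  have hmono : ∀ j ≤ N, ∀ i ≤ j, E i ⊆ E j := by
    intro j
    induction j with
    | zero => intro _ i hi; rw [Nat.le_zero.1 hi]
    | succ j ih =>
      intro hj i hi
      rcases Nat.lt_or_ge i (j + 1) with h | h
      · refine (ih (by omega) i (by omega)).trans fun x hx => ?_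
        have := hfar' j (by omega) 1 (Set.one_mem_pow h1K) x hx
        rwa [one_smul] at this
      · rw [le_antisymm hi h]
  refine many_cuts hKf h1K hKinv hgood x0 (a * s) N E hx0 hconn hfar' ?_ ?_ ?_ ?_
  · exact fun i hi => (bd_count hSf h1S hSinv hKS (E i) (hbd i hi).1).1
  · intro i hi
    obtain ⟨g, hg⟩ := hprop
    exact bd_ne hS hSK (hx0 i hi) ⟨g, fun h => hg (hmono N le_rfl i hi h)⟩
  · intro i hi
    exact (bd_count hSf h1S hSinv hKS (E i) (hbd i hi).1).2.trans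
      (Nat.mul_le_mul_left _ (hbd i hi).2)
  · refine (np_bound t a s).trans (le_trans ?_ hN)
    have h1 : 2 * t * a * s + 2 * t * a + 1 ≤ (5 * l + 2 * t * a + 1) * (s + 1) := by nlinarith
    have h2 : 2 * t * a * s ≤ (5 * l + 2 * t * a + 1) * s := by nlinarith
    exact (Nat.pow_le_pow_left h1 _).trans
      (Nat.pow_le_pow_right (Nat.mul_pos (by omega) (by omega)) h2)

end Pool.Agent.T6.H10.MG
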