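import Pool.Agent.T6.H10.MG.Stk
import Pool.Agent.T6.H10.MG.Pig

/-!
# Tree-like actions of finitely presented groups lift to universal covers of the graphs
-/

set_option autoImplicit false

open scoped Pointwise

namespace Pool.Agent.T6.H10.MG

open Pool.Agent.H71R2.Thin Pool.Agent.H71R2.TW

universe u v w

variable {G : Type u} [Group G] {X : Type v} [MulAction G X] {V : Type w} (π : X → V)

/-- The points of the universal cover: a point with a reduced path ending in its image. -/
abbrev Xt : Type (max v w) := {p : X × List V // Red p.2 ∧ p.2.head? = some (π p.1)}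

/-- The lift of the action of a letter. -/
noncomputable def stp (g : G) (p : Xt π) : Xt π :=
  ⟨(g • p.1.1, push p.1.2 (π (g • p.1.1))), red_push p.2.1 _, head_push _ _⟩

theorem stp_inv (g : G) (p : Xt π) : stp π g⁻¹ (stp π g p) = p := by
  apply Subtype.ext
  apply Prod.ext
  · exact inv_smul_smul g p.1.1
  · show push (push p.1.2 (π (g • p.1.1))) (π (g⁻¹ • g • p.1.1)) = p.1.2
    rw [inv_smul_smul]
    exact back p.2.1 p.2.2 _

/-- The permutation of a letter. -/
noncomputable def stpP (g : G) : Equiv.Perm (Xt π) where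
  toFun := stp π g
  invFun := stp π g⁻¹
  left_inv := stp_inv π g
  right_inv p := by
    have := stp_inv π g⁻¹ p
    rwa [inv_inv] at this

theorem stpP_inv (g : G) : stpP π g⁻¹ = (stpP π g)⁻¹ := by
  ext1 p
  rfl

/-- The permutation of a word. -/
noncomputable def wdP (l : List G) : Equiv.Perm (Xt π) := (l.map (stpP π)).prod

theorem wdP_append (l l' : List G) : wdP π (l ++ l') = wdP π l * wdP π l' := by
  unfold wdP
  rw [List.map_append, List.prod_append]

theorem wdP_inv (l : List G) : wdP π (l.map (·⁻¹)).reverse = (wdP π l)⁻¹ := by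
  induction l with
  | nil => simp [wdP]
  | cons a l ih =>
    rw [List.map_cons, List.reverse_cons, wdP_append, ih]
    have e : wdP π [a⁻¹] = (stpP π a)⁻¹ := by
      unfold wdP
      rw [List.map_cons, List.map_nil, List.prod_cons, List.prod_nil, mul_one, stpP_inv]
    have e2 : wdP π (a :: l) = stpP π a * wdP π l := by
      unfold wdP
      rw [List.map_cons, List.prod_cons]
    rw [e, e2, mul_inv_rev]

variable {S : Set G} {T : SimpleGraph V} {π}

theorem wdP_path (hmv : ∀ x : X, ∀ s ∈ S, π (s • x) = π x ∨ T.Adj (π x) (π (s • x)))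
    (p : Xt π) (l : List G) (hl : ∀ a ∈ l, a ∈ S) : ∃ s : ℕ → V, s 0 = π p.1.1 ∧
      (∀ i < l.length, s (i + 1) = s i ∨ T.Adj (s i) (s (i + 1))) ∧
      s l.length = π (l.prod • p.1.1) ∧ (wdP π l p).1.1 = l.prod • p.1.1 ∧
      (wdP π l p).1.2 = run p.1.2 s l.length := by
  induction l with
  | nil =>
    refine ⟨fun _ => π p.1.1, rfl, fun i hi => absurd hi (Nat.not_lt_zero _), ?_, ?_, ?_⟩
    · simp
    · simp [wdP]
    · simp [wdP, run]
  | cons a l ih =>
    obtain ⟨s, h0, h1, h2, h3, h4⟩ := ih fun b hb => hl b (List.mem_cons_of_mem _ hb)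
    have hlen : (a :: l).length = l.length + 1 := rfl
    have hprod : (a :: l).prod • p.1.1 = a • l.prod • p.1.1 := by
      rw [List.prod_cons, mul_smul]
    have hw : wdP π (a :: l) p = stp π a (wdP π l p) := by
      unfold wdP
      rw [List.map_cons, List.prod_cons, Equiv.Perm.mul_apply]
      rfl
    obtain ⟨s', hle, hgt⟩ : ∃ s' : ℕ → V, (∀ i ≤ l.length, s' i = s i) ∧
        s' (l.length + 1) = π (a • l.prod • p.1.1) :=
      ⟨fun i => if i ≤ l.length then s i else π (a • l.prod • p.1.1), fun i hi => if_pos hi,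
        if_neg (by omega)⟩
    refine ⟨s', ?_, ?_, ?_, ?_, ?_⟩
    · rw [hle 0 (Nat.zero_le _)]
      exact h0
    · intro i hi
      rw [hlen] at hi
      rcases Nat.lt_or_ge i l.length with h | h
      · rw [hle i (by omega), hle (i + 1) (by omega)]
        exact h1 i h
      · have hi' : i = l.length := by omega
        subst hi'
        rw [hgt, hle _ le_rfl, h2]
        exact hmv _ a (hl a List.mem_cons_self)
    · rw [hlen, hgt, hprod]
    · rw [hw, hprod]
      show a • (wdP π l p).1.1 = _
      rw [h3]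
    · rw [hw, hlen]
      show push (wdP π l p).1.2 (π (a • (wdP π l p).1.1)) = push (run _ _ l.length) _
      rw [hgt, h3, h4]
      congr 1
      exact run_congr fun i hi => (hle i hi).symm

theorem wdP_one {L : ℕ} (hT : NoShort T L)
    (hmv : ∀ x : X, ∀ s ∈ S, π (s • x) = π x ∨ T.Adj (π x) (π (s • x)))
    (l : List G) (hl : ∀ a ∈ l, a ∈ S) (hL : l.length ≤ L) (h1 : l.prod = 1) :
    wdP π l = 1 := by
  ext1 p
  obtain ⟨s, h0, h2, h3, h4, h5⟩ := wdP_path hmv p l hl
  rw [h1, one_smul] at h3 h4
  apply Subtype.ext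
  refine Prod.ext h4 ?_
  rw [h5]
  exact closed_run hT l.length hL s p.1.2 p.2.1 (by rw [h0]; exact p.2.2) h2 (h3.trans h0.symm)

theorem exists_word {S : Set G} (hS : Submonoid.closure S = ⊤) (g : G) :
    ∃ l : List G, (∀ a ∈ l, a ∈ S) ∧ l.prod = g :=
  Submonoid.exists_list_of_mem_closure (by rw [hS]; trivial)

/-- The action lifts. -/
theorem exists_lift {G : Type u} [Group G] [Group.IsFinitelyPresented G] {S : Set G}
    (hSf : S.Finite) (hS : Submonoid.closure S = ⊤) (hSinv : ∀ s ∈ S, s⁻¹ ∈ S) :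
    ∃ L : ℕ, ∀ (X : Type v) [MulAction G X] (V : Type w) (T : SimpleGraph V) (π : X → V),
      NoShort T L → (∀ x : X, ∀ s ∈ S, π (s • x) = π x ∨ T.Adj (π x) (π (s • x))) →
      ∃ Φ : G →* Equiv.Perm (Xt π), ∀ s ∈ S, Φ s = stpP π s := by
  classical
  obtain ⟨T0, hT0⟩ := fp_extend.{u, max v w} (G := G) hSf.toFinset
  choose wd hwS hwp using exists_word hS
  set E : Finset G := T0 ∪ T0 * T0 ∪ hSf.toFinset with hE
  set M : ℕ := E.sup (fun g => (wd g).length) with hM
  have hMle : ∀ g ∈ E, (wd g).length ≤ M := fun g hg =>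
    Finset.le_sup (f := fun g => (wd g).length) hg
  refine ⟨3 * M + 1, ?_⟩
  intro X _ V T π hT hmv
  have hinvS : ∀ l : List G, (∀ a ∈ l, a ∈ S) → ∀ a ∈ (l.map (·⁻¹)).reverse, a ∈ S := by
    intro l hl a ha
    rw [List.mem_reverse, List.mem_map] at ha
    obtain ⟨b, hb, rfl⟩ := ha
    exact hSinv b (hl b hb)
  have key : ∀ l l' : List G, (∀ a ∈ l, a ∈ S) → (∀ a ∈ l', a ∈ S) →
      l.length + l'.length ≤ 3 * M + 1 → l.prod = l'.prod → wdP π l = wdP π l' := by
    intro l l' hl hl' hlen hp
    have h1 : wdP π ((l.map (·⁻¹)).reverse ++ l') = 1 := by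
      refine wdP_one hT hmv _ ?_ ?_ ?_
      · intro a ha
        rw [List.mem_append] at ha
        exact ha.elim (hinvS l hl a) (hl' a)
      · rw [List.length_append, List.length_reverse, List.length_map]
        exact hlen
      · rw [List.prod_append, ← List.prod_inv_reverse, hp, inv_mul_cancel]
    rw [wdP_append, wdP_inv, inv_mul_eq_one] at h1
    exact h1
  obtain ⟨Φ, hΦ⟩ := hT0 (Equiv.Perm (Xt π)) (fun g => wdP π (wd g)) (by
    intro x hx y hy
    rw [← wdP_append]
    refine key _ _ (hwS _) ?_ ?_ ?_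
    · intro a ha
      rw [List.mem_append] at ha
      exact ha.elim (hwS x a) (hwS y a)
    · rw [List.length_append]
      have h1 := hMle x (by simp [hE, hx])
      have h2 := hMle y (by simp [hE, hy])
      have h3 := hMle (x * y) (by
        rw [hE]
        exact Finset.mem_union_left _ (Finset.mem_union_right _ (Finset.mul_mem_mul hx hy)))
      omega
    · rw [List.prod_append, hwp, hwp, hwp])
  refine ⟨Φ, fun s hs => ?_⟩
  rw [hΦ s (by simpa using hs)]
  have h1 : wdP π [s] = stpP π s := by
    unfold wdP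
    rw [List.map_cons, List.map_nil, List.prod_cons, List.prod_nil, mul_one]
  rw [← h1]
  refine key _ _ (hwS s) ?_ ?_ ?_
  · intro a ha
    rw [List.mem_singleton] at ha
    rw [ha]
    exact hs
  · have h3 := hMle s (by simp [hE, hs])
    simp only [List.length_cons, List.length_nil]
    omega
  · rw [hwp, List.prod_singleton]

end Pool.Agent.T6.H10.MG
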