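import Pool.Agent.H71R2.TW.Walk

/-!
# Reduced paths as stacks
-/

set_option autoImplicit false

namespace Pool.Agent.T6.H10.MG

open Pool.Agent.H71R2.TW

universe w

variable {V : Type w}

open Classical in
/-- Moving the end of a reduced path to `u`. -/
noncomputable def push : List V → V → List V
  | [], u => [u]
  | [v], u => if u = v then [v] else [u, v]
  | v :: v' :: r, u => if u = v then v :: v' :: r else if u = v' then v' :: r
      else u :: v :: v' :: r

open Classical in
theorem push_one (v u : V) : push [v] u = if u = v then [v] else [u, v] := rfl

open Classical in
theorem push_two (v v' : V) (r : List V) (u : V) : push (v :: v' :: r) u =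
    if u = v then v :: v' :: r else if u = v' then v' :: r else u :: v :: v' :: r := rfl

/-- Reduced paths (the end is the head). -/
def Red : List V → Prop
  | [] => False
  | [_] => True
  | [a, b] => a ≠ b
  | a :: b :: c :: r => a ≠ b ∧ a ≠ c ∧ Red (b :: c :: r)

theorem red_tail {a b : V} {r : List V} (h : Red (a :: b :: r)) : Red (b :: r) := by
  cases r with
  | nil => trivial
  | cons c r => exact h.2.2

theorem red_ne {a b : V} {r : List V} (h : Red (a :: b :: r)) : a ≠ b := by
  cases r with
  | nil => exact h
  | cons c r => exact h.1

theorem head_push (w : List V) (u : V) : (push w u).head? = some u := by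
  match w with
  | [] => simp [push]
  | [v] =>
    rw [push_one]
    split_ifs with h
    · simp [h]
    · simp
  | v :: v' :: r =>
    rw [push_two]
    split_ifs with h h'
    · simp [h]
    · simp [h']
    · simp

theorem red_push {w : List V} (hw : Red w) (u : V) : Red (push w u) := by
  match w, hw with
  | [v], _ =>
    rw [push_one]
    split_ifs with h
    · trivial
    · exact h
  | v :: v' :: r, hw =>
    rw [push_two]
    split_ifs with h h'
    · exact hw
    · exact red_tail hw
    · exact ⟨h, h', hw⟩

theorem back {w : List V} (hw : Red w) {v : V} (hv : w.head? = some v) (u : V) :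
    push (push w u) v = w := by
  match w, hw with
  | [a], _ =>
    simp only [List.head?_cons, Option.some.injEq] at hv
    subst hv
    by_cases h : u = a
    · simp [push, h]
    · simp [push, h, Ne.symm h]
  | [a, b], hw =>
    simp only [List.head?_cons, Option.some.injEq] at hv
    subst hv
    have hab : a ≠ b := hw
    by_cases h : u = a
    · simp [push, h]
    · by_cases h' : u = b
      · simp [push, h', hab, hab.symm]
      · simp [push, h, h', Ne.symm h]
  | a :: b :: c :: r, hw =>
    simp only [List.head?_cons, Option.some.injEq] at hv
    subst hv
    have hab : a ≠ b := hw.1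
    have hac : a ≠ c := hw.2.1
    by_cases h : u = a
    · simp [push, h]
    · by_cases h' : u = b
      · simp [push, h', hab, hab.symm, hac]
      · simp [push, h, h', Ne.symm h]

/-- Moving along a sequence of vertices. -/
noncomputable def run (w : List V) (s : ℕ → V) : ℕ → List V
  | 0 => w
  | m + 1 => push (run w s m) (s (m + 1))

theorem run_head {w : List V} {s : ℕ → V} (h : w.head? = some (s 0)) (m : ℕ) :
    (run w s m).head? = some (s m) := by
  cases m with
  | zero => exact h
  | succ m => exact head_push _ _

theorem run_red {w : List V} {s : ℕ → V} (h : Red w) (m : ℕ) : Red (run w s m) := by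
  induction m with
  | zero => exact h
  | succ m ih => exact red_push ih _

theorem run_congr {w : List V} {s s' : ℕ → V} {m : ℕ} (h : ∀ i ≤ m, s i = s' i) :
    run w s m = run w s' m := by
  induction m with
  | zero => rfl
  | succ m ih =>
    show push (run w s m) (s (m + 1)) = push (run w s' m) (s' (m + 1))
    rw [ih fun i hi => h i (by omega), h (m + 1) le_rfl]

theorem run_skip {w : List V} {s : ℕ → V} {i d : ℕ} (h : run w s (i + d) = run w s i) (j : ℕ) :
    run w s (i + d + j) = run w (fun j => if j ≤ i then s j else s (j + d)) (i + j) := by
  induction j with
  | zero =>
    rw [add_zero, add_zero, h]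
    exact run_congr fun a ha => (if_pos ha).symm
  | succ j ih =>
    show push (run w s (i + d + j)) (s (i + d + j + 1)) = push (run w _ (i + j)) _
    rw [ih]
    have e : (fun j => if j ≤ i then s j else s (j + d)) (i + j + 1) = s (i + d + j + 1) := by
      show (if i + j + 1 ≤ i then s (i + j + 1) else s (i + j + 1 + d)) = _
      rw [if_neg (by omega)]
      congr 1
      omega
    rw [← e]
    rfl

/-- Closed sequences shorter than all cycles of the graph do not change the reduced path. -/
theorem closed_run {T : SimpleGraph V} {L : ℕ} (hT : NoShort T L) : ∀ m ≤ L, ∀ (s : ℕ → V)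
    (w : List V), Red w → w.head? = some (s 0) →
    (∀ i < m, s (i + 1) = s i ∨ T.Adj (s i) (s (i + 1))) → s m = s 0 → run w s m = w := by
  intro m
  induction m using Nat.strong_induction_on with
  | _ m ih =>
    intro hm s w hw hh hs hcl
    rcases Nat.eq_zero_or_pos m with h0 | h0
    · subst h0; rfl
    by_cases hst : ∃ i < m, s (i + 1) = s i
    · obtain ⟨i, hi, hsi⟩ := hst
      have h1 : run w s (i + 1) = run w s i := by
        show push (run w s i) (s (i + 1)) = run w s i
        have h2 := run_head hh i
        have h3 := run_red (s := s) hw i
        rw [hsi]
        generalize run w s i = u at h2 h3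
        match u, h3 with
        | [a], _ =>
          simp only [List.head?_cons, Option.some.injEq] at h2
          simp [push, h2]
        | a :: b :: r, _ =>
          simp only [List.head?_cons, Option.some.injEq] at h2
          simp [push, h2]
      have h2 := run_skip h1 (m - (i + 1))
      rw [show i + 1 + (m - (i + 1)) = m by omega] at h2
      rw [h2, show i + (m - (i + 1)) = m - 1 by omega]
      refine ih (m - 1) (by omega) (by omega) _ w hw ?_ ?_ ?_
      · simpa using hh
      · intro j hj
        by_cases hji : j + 1 ≤ i
        · rw [if_pos hji, if_pos (by omega)]
          exact hs j (by omega)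
        · by_cases hji' : j ≤ i
          · have hji2 : j = i := by omega
            subst hji2
            rw [if_neg hji, if_pos le_rfl, ← hsi]
            exact hs (j + 1) (by omega)
          · rw [if_neg hji, if_neg hji']
            exact hs (j + 1) (by omega)
      · rw [if_pos (Nat.zero_le _)]
        by_cases hmi : m - 1 ≤ i
        · rw [if_pos hmi, ← hcl]
          have : m - 1 = i := by omega
          rw [this, ← hsi]
          congr 1
          omega
        · rw [if_neg hmi, ← hcl]
          congr 1
          omega
    · push Not at hst
      have hadj : ∀ i < m, T.Adj (s i) (s (i + 1)) := fun i hi =>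
        (hs i hi).resolve_left (hst i hi)
      obtain ⟨i, hi, hsi⟩ := backtrack hT m s hadj h0 hm hcl
      have h1 : run w s (i + 2) = run w s i := by
        show push (push (run w s i) (s (i + 1))) (s (i + 2)) = run w s i
        rw [← hsi]
        exact back (run_red hw i) (run_head hh i) _
      have h2 := run_skip h1 (m - (i + 2))
      rw [show i + 2 + (m - (i + 2)) = m by omega] at h2
      rw [h2, show i + (m - (i + 2)) = m - 2 by omega]
      refine ih (m - 2) (by omega) (by omega) _ w hw ?_ ?_ ?_
      · simpa using hh
      · intro j hj
        by_cases hji : j + 1 ≤ i
        · rw [if_pos hji, if_pos (by omega)]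
          exact hs j (by omega)
        · by_cases hji' : j ≤ i
          · have hji2 : j = i := by omega
            subst hji2
            rw [if_neg hji, if_pos le_rfl, hsi]
            exact hs (j + 2) (by omega)
          · rw [if_neg hji, if_neg hji']
            exact hs (j + 2) (by omega)
      · rw [if_pos (Nat.zero_le _)]
        by_cases hmi : m - 2 ≤ i
        · rw [if_pos hmi, ← hcl]
          have : m - 2 = i := by omega
          rw [this, hsi]
          congr 1
          omega
        · rw [if_neg hmi, ← hcl]
          congr 1
          omega

/-- A step removes at most the head. -/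
theorem suffix_push {w u : List V} (h : w <:+ u) (v : V) (hne : u ≠ w) : w <:+ push u v := by
  obtain ⟨t, rfl⟩ := h
  match t with
  | [] => exact absurd rfl hne
  | [a] =>
    match w with
    | [] => exact List.nil_suffix
    | b :: r =>
      show (b :: r) <:+ push (a :: b :: r) v
      rw [push_two]
      split_ifs
      · exact List.suffix_cons a _
      · exact List.suffix_refl _
      · exact (List.suffix_cons a _).trans (List.suffix_cons v _)
  | a :: b :: t' =>
    show w <:+ push (a :: b :: (t' ++ w)) v
    rw [push_two]
    have h1 : w <:+ b :: (t' ++ w) := (List.suffix_append t' w).trans (List.suffix_cons b _)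
    split_ifs
    · exact h1.trans (List.suffix_cons a _)
    · exact h1
    · exact (h1.trans (List.suffix_cons a _)).trans (List.suffix_cons v _)

theorem suffix_push' {a : V} {w u : List V} (h : (a :: w) <:+ u) (v : V) : w <:+ push u v := by
  by_cases hne : u = w
  · exfalso
    have := h.length_le
    rw [hne] at this
    simp at this
  · exact suffix_push ((List.suffix_cons a w).trans h) v hne

end Pool.Agent.T6.H10.MG
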